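import Mathlib
import Pool.Agent.Lib.helper13.RayC

set_option autoImplicit false

open Pointwise

namespace Pool.Agent.Results.MP_0e8110_lc.ThinRay

/-- The rational polyhedron `{x : A x ≤ b}` in Euclidean `n`-space. -/
def polyhedron {m n : ℕ} (A : Matrix (Fin m) (Fin n) ℚ) (b : Fin m → ℚ) :
    Set (EuclideanSpace ℝ (Fin n)) :=
  {x | ∀ i, ∑ j, (A i j : ℝ) * x j ≤ (b i : ℝ)}

/-- The integer points. -/
def intPoints (n : ℕ) : Set (EuclideanSpace ℝ (Fin n)) := {x | ∀ j, ∃ z : ℤ, x j = (z : ℝ)}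

/-- The ray `{y + t d : t ≥ 0}`. -/
def ray {n : ℕ} (y d : EuclideanSpace ℝ (Fin n)) : Set (EuclideanSpace ℝ (Fin n)) :=
  {x | ∃ t : ℝ, 0 ≤ t ∧ x = y + t • d}

/-- The infimum of the polynomial `f` over `S` is `-∞`. -/
def UnboundedBelow {n : ℕ} (f : MvPolynomial (Fin n) ℝ) (S : Set (EuclideanSpace ℝ (Fin n))) :
    Prop :=
  ∀ M : ℝ, ∃ x ∈ S, MvPolynomial.eval (fun j => x j) f < M

theorem result (n m : ℕ) (A : Matrix (Fin m) (Fin n) ℚ) (b : Fin m → ℚ)
    (f : MvPolynomial (Fin n) ℝ) (hf : f.totalDegree ≤ 3) :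
    UnboundedBelow f (polyhedron A b ∩ intPoints n) ↔
      ∃ y d : EuclideanSpace ℝ (Fin n), d ≠ 0 ∧ ray y d ⊆ polyhedron A b ∧
        ∀ ε : ℝ, 0 < ε → UnboundedBelow f
          (polyhedron A b ∩ intPoints n ∩ (ray y d + Metric.closedBall 0 ε)) := by
  constructor
  · intro h
    by_contra hno
    push Not at hno
    let e : (Fin n → ℝ) →L[ℝ] EuclideanSpace ℝ (Fin n) :=
      ((EuclideanSpace.equiv (Fin n) ℝ).symm : (Fin n → ℝ) →L[ℝ] EuclideanSpace ℝ (Fin n))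
    have he : ∀ x j, e x j = x j := fun _ _ => rfl
    obtain ⟨M, hM⟩ := H13Ray.main A b f hf (by
      intro y d hd hP
      obtain ⟨ε, hε, h1⟩ := hno (e y) (e d)
        (fun h0 => hd (funext fun j => by rw [← he d j, h0]; rfl))
        (by
          rintro _ ⟨t, ht, rfl⟩
          exact hP t ht)
      unfold UnboundedBelow at h1
      push Not at h1
      obtain ⟨M, hM⟩ := h1
      refine ⟨ε / (‖e‖ + 1), by positivity, M, fun x hx hz t ht h2 => ?_⟩
      refine hM (e x) ⟨⟨hx, hz⟩, ?_⟩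
      refine ⟨e y + t • e d, ⟨t, ht, rfl⟩, e (x - (y + t • d)), ?_, ?_⟩
      · rw [mem_closedBall_zero_iff]
        refine (e.le_opNorm _).trans ?_
        rw [le_div_iff₀ (by positivity)] at h2
        nlinarith [norm_nonneg (x - (y + t • d))]
      · simp only [map_sub, map_add, map_smul]; abel)
    obtain ⟨x, hx, h2⟩ := h M
    exact absurd (hM ⟨fun j => x j, ⟨hx.1, hx.2⟩, rfl⟩) (not_le.mpr h2)
  · rintro ⟨y, d, -, -, h⟩ M
    obtain ⟨x, hx, h1⟩ := h 1 one_pos M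
    exact ⟨x, hx.1, h1⟩

end Pool.Agent.Results.MP_0e8110_lc.ThinRay
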